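import Pool.Agent.H14.BR.Stm

/-!
Crew BR, part PMD: the set of the conditions of random forcing (trees) is in the model.
-/

set_option autoImplicit false
set_option linter.unreachableTactic false
set_option linter.unusedTactic false

namespace H75.BR

open ZFSet (pair)
open Pool.Agent.W868
open MeasureTheory H14.ES H46.RF H14.BR

lemma mem_nat' {x : ZFSet.{0}} {m : ℕ} : x ∈ nat m ↔ ∃ j < m, x = nat j := by
  induction m with
  | zero => simp [nat]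
  | succ m ih =>
    rw [nat, ZFSet.mem_insert_iff, ih]
    constructor
    · rintro (rfl | ⟨j, hj, rfl⟩)
      · exact ⟨m, Nat.lt_succ_self m, rfl⟩
      · exact ⟨j, by omega, rfl⟩
    · rintro ⟨j, hj, rfl⟩
      rcases Nat.lt_succ_iff_lt_or_eq.1 hj with h | rfl
      · exact Or.inr ⟨j, h, rfl⟩
      · exact Or.inl rfl

lemma nat_sub {k m : ℕ} : nat k ⊆ nat m ↔ k ≤ m := by
  constructor
  · intro h
    by_contra hlt
    have h1 : nat m ∈ nat k := mem_nat'.2 ⟨m, by omega, rfl⟩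
    obtain ⟨j, hj, h2⟩ := mem_nat'.1 (h h1)
    have := nat_injective h2
    omega
  · intro h x hx
    obtain ⟨j, hj, rfl⟩ := mem_nat'.1 hx
    exact mem_nat'.2 ⟨j, by omega, rfl⟩

/-- the set theoretic version of `Half` -/
def HalfZ (M : Set ZFSet.{0}) (Wd Ln T y m : ZFSet.{0}) : Prop :=
  ∃ f ∈ M, (∀ x ∈ Wd, pair x m ∈ Ln → y ⊆ x → ¬ x ∈ T → ∃ x' ∈ Wd, pair x' m ∈ Ln ∧ y ⊆ x' ∧
    x' ∈ T ∧ pair x x' ∈ f) ∧
    ∀ a ∈ M, ∀ a' ∈ M, ∀ b ∈ M, pair a b ∈ f → pair a' b ∈ f → a = a'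

/-- the set theoretic version of being a condition -/
def Cond (M : Set ZFSet.{0}) (Wd Ln T : ZFSet.{0}) : Prop :=
  (∀ a ∈ Wd, a ∈ T → ∀ b ∈ Wd, b ⊆ a → b ∈ T) ∧
  ∃ y ∈ Wd, ∃ k ∈ (ZFSet.omega : ZFSet.{0}), pair y k ∈ Ln ∧
    ∀ m ∈ (ZFSet.omega : ZFSet.{0}), k ⊆ m → HalfZ M Wd Ln T y m

lemma dfn_cond {M : Set ZFSet.{0}} (hM : IsZF M) {Wd Ln : ZFSet.{0}} (hWd : Wd ∈ M)
    (hLn : Ln ∈ M) :
    Dfn M M fun w : Fin 1 → ZFSet.{0} => Cond M Wd Ln (w 0) := by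
  have hB := hM.base
  have hom : (ZFSet.omega : ZFSet.{0}) ∈ M := hM.infinity
  unfold Cond HalfZ
  (repeat' first
      | assumption
      | exact DfnF.proj _
      | exact DfnF.const (by assumption)
      | apply Dfn.not | apply Dfn.and | apply Dfn.or | apply Dfn.imp | apply Dfn.iff
      | apply hB.bex | apply hB.ball | apply Dfn.ex | apply Dfn.all
      | apply Dfn.eq | apply Dfn.mem | apply hB.subset' | apply hB.pair')

/-- positive measure of the body -/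
theorem pos_iff (hDM3 : S_DM3) (hBMS : S_BMS) (T : ZFSet.{0}) (hT : IsTree T) :
    0 < mu ℕ (body T) ↔ ∃ (r : ℕ → Bool) (n : ℕ), ∀ m, n ≤ m → Half T r n m := by
  obtain ⟨b1, b2, b3, b4, b5, b6, b7⟩ := hBMS
  constructor
  · intro h
    obtain ⟨r, n, -, -, h2⟩ := hDM3 T hT h 0
    exact ⟨r, n, h2⟩
  · rintro ⟨r, n, h⟩
    let s : ℕ → Set (ℕ → Bool) := fun m => cyl r n ∩ lev T (n + m)
    have hanti : Antitone s := by
      intro a b hab x hx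
      exact ⟨hx.1, b4 T hT _ _ (by omega) hx.2⟩
    have hmeas : ∀ m, NullMeasurableSet (s m) (mu ℕ) := fun m =>
      ((b6 r n).inter (b1 T _)).nullMeasurableSet
    have hlim := tendsto_measure_iInter_atTop hmeas hanti ⟨0, measure_ne_top _ _⟩
    have hsub : (⋂ m, s m) ⊆ body T := by
      intro x hx
      rw [b3]
      refine Set.mem_iInter.2 fun m => ?_
      have h1 : x ∈ s m := Set.mem_iInter.1 hx m
      exact b4 T hT _ _ (by omega) h1.2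
    have hlow : ∀ m, mu ℕ (cyl r n) / 2 ≤ mu ℕ (s m) := by
      intro m
      have h1 := h (n + m) (by omega)
      unfold Half at h1
      rw [ENNReal.div_le_iff_le_mul (by simp) (by simp), mul_comm]
      exact h1
    have h2 : mu ℕ (cyl r n) / 2 ≤ mu ℕ (⋂ m, s m) := ge_of_tendsto' hlim hlow
    have h3 : 0 < mu ℕ (cyl r n) / 2 := by
      rw [b7]
      apply ENNReal.div_pos
      · rw [Ne, ENNReal.inv_eq_zero]
        exact ENNReal.pow_ne_top (by simp)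
      · simp
    exact lt_of_lt_of_le h3 (h2.trans (measure_mono hsub))

theorem pmd (hBig : S_BIG) (hDM3 : S_DM3) (hW : S_WRD) (hBMS : S_BMS) : S_PMD := by
  intro M hM
  obtain ⟨-, -, hinj, hsub, -, hWM⟩ := hW
  obtain ⟨hiniM, -, ⟨Wd, hWdM, hWd⟩, ⟨Ln, hLnM, hLn⟩⟩ := hWM M hM
  have hLn2 : ∀ (x : ZFSet.{0}) (m : ℕ), pair x (nat m) ∈ Ln ↔ ∃ r, x = ini r m := by
    intro x m
    rw [hLn]
    constructor
    · rintro ⟨r, n, h⟩
      obtain ⟨h1, h2⟩ := ZFSet.pair_inj.1 h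
      have := nat_injective h2
      subst this
      exact ⟨r, h1⟩
    · rintro ⟨r, rfl⟩
      exact ⟨r, m, rfl⟩
  have hsubc : ∀ (r x : ℕ → Bool) (k m : ℕ), k ≤ m → (ini r k ⊆ ini x m ↔ x ∈ cyl r k) := by
    intro r x k m hkm
    rw [hsub]
    constructor
    · rintro ⟨-, h⟩ i hi
      exact (h i hi).symm
    · intro h
      exact ⟨hkm, fun i hi => (h i hi).symm⟩
  have hhalf : ∀ (T : ZFSet.{0}) (r : ℕ → Bool) (k m : ℕ), k ≤ m →
      (Half T r k m ↔ HalfZ M Wd Ln T (ini r k) (nat m)) := by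
    intro T r k m hkm
    rw [hBig M hM T r k m hkm]
    constructor
    · rintro ⟨f, hf, h1, h2⟩
      refine ⟨f, hf, ?_, fun a _ a' _ b _ => h2 a a' b⟩
      intro x _ hx hyx hxT
      obtain ⟨x0, rfl⟩ := (hLn2 x m).1 hx
      obtain ⟨y, hy, hyT, hyf⟩ := h1 x0 ((hsubc _ _ _ _ hkm).1 hyx) hxT
      exact ⟨ini y m, (hWd _).2 ⟨y, m, rfl⟩, (hLn2 _ _).2 ⟨y, rfl⟩, (hsubc _ _ _ _ hkm).2 hy, hyT,
        hyf⟩
    · rintro ⟨f, hf, h1, h2⟩
      refine ⟨f, hf, ?_, ?_⟩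
      · intro x hx hxT
        obtain ⟨x', -, hx', hyx', hxT', hxf⟩ := h1 (ini x m) ((hWd _).2 ⟨x, m, rfl⟩)
          ((hLn2 _ _).2 ⟨x, rfl⟩) ((hsubc _ _ _ _ hkm).2 hx) hxT
        obtain ⟨y, rfl⟩ := (hLn2 x' m).1 hx'
        exact ⟨y, (hsubc _ _ _ _ hkm).1 hyx', hxT', hxf⟩
      · intro a a' b hab hab'
        have e1 := hM.of_pair_mem (hM.trans _ hf _ hab)
        have e2 := hM.of_pair_mem (hM.trans _ hf _ hab')
        exact h2 a e1.1 a' e2.1 b e1.2 hab hab'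
  have hdown : ∀ {T : ZFSet.{0}}, IsTree T → ∀ (r : ℕ → Bool) (n : ℕ), ini r n ∈ T →
      ∀ m, m ≤ n → ini r m ∈ T := by
    intro T hT r n
    induction n with
    | zero =>
      intro h m hm
      obtain rfl : m = 0 := by omega
      exact h
    | succ n ih =>
      intro h m hm
      rcases Nat.le_succ_iff.1 hm with h' | rfl
      · exact ih (hT.down r n h) m h'
      · exact h
  have htree : ∀ T : ZFSet.{0}, T ⊆ Wd → (IsTree T ↔ ∀ a ∈ Wd, a ∈ T → ∀ b ∈ Wd, b ⊆ a → b ∈ T) := by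
    intro T hTW
    constructor
    · intro hT a _ ha b hb hba
      obtain ⟨r, n, rfl⟩ := hT.word a ha
      obtain ⟨r', n', rfl⟩ := (hWd b).1 hb
      obtain ⟨h1, h2⟩ := (hsub _ _ _ _).1 hba
      have h3 : ini r' n' = ini r n' := (hinj _ _ _ _).2 ⟨rfl, h2⟩
      rw [h3]
      exact hdown hT r n ha n' h1
    · intro h2
      refine ⟨fun z hz => (hWd z).1 (hTW hz), fun r n hn => ?_⟩
      exact h2 _ ((hWd _).2 ⟨r, n + 1, rfl⟩) hn _ ((hWd _).2 ⟨r, n, rfl⟩)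
        ((hsub _ _ _ _).2 ⟨by omega, fun i _ => rfl⟩)
  have hcond : ∀ T : ZFSet.{0}, T ⊆ Wd → (Cond M Wd Ln T ↔ IsTree T ∧ 0 < mu ℕ (body T)) := by
    intro T hTW
    constructor
    · rintro ⟨h1, y, hy, k, hk, hyk, h2⟩
      have hT := (htree T hTW).2 h1
      refine ⟨hT, (pos_iff hDM3 hBMS T hT).2 ?_⟩
      obtain ⟨k, rfl⟩ := mem_omega_iff.1 hk
      obtain ⟨r, rfl⟩ := (hLn2 _ _).1 hyk
      exact ⟨r, k, fun m hkm => (hhalf T r k m hkm).2 (h2 (nat m) (mem_omega_iff.2 ⟨m, rfl⟩)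
        (nat_sub.2 hkm))⟩
    · rintro ⟨hT, hpos⟩
      refine ⟨(htree T hTW).1 hT, ?_⟩
      obtain ⟨r, k, h⟩ := (pos_iff hDM3 hBMS T hT).1 hpos
      refine ⟨ini r k, (hWd _).2 ⟨r, k, rfl⟩, nat k, mem_omega_iff.2 ⟨k, rfl⟩, (hLn2 _ _).2 ⟨r, rfl⟩, ?_⟩
      intro m hm hkm
      obtain ⟨m, rfl⟩ := mem_omega_iff.1 hm
      have hkm' := nat_sub.1 hkm
      exact (hhalf T r k m hkm').1 (h m hkm')
  obtain ⟨Pw, hPw, hPw'⟩ := hM.exists_pow hWdM
  refine ⟨ZFSet.sep (fun T => Cond M Wd Ln T) Pw, hM.sep_mem (dfn_cond hM hWdM hLnM) hPw, fun T => ?_⟩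
  rw [ZFSet.mem_sep, hPw']
  constructor
  · rintro ⟨⟨h1, h2⟩, h3⟩
    obtain ⟨h4, h5⟩ := (hcond T h2).1 h3
    exact ⟨h1, h4, h5⟩
  · rintro ⟨h1, h4, h5⟩
    have h2 : T ⊆ Wd := fun z hz => (hWd z).2 (h4.word z hz)
    exact ⟨⟨h1, h2⟩, (hcond T h2).2 ⟨h4, h5⟩⟩

end H75.BR
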